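import Pool.Agent.Q199.GF.Space

set_option autoImplicit false

namespace Pool.Agent.Q199.GF

open Filter Topology
open scoped ENNReal

theorem near_iso (V : Type*) [NormedAddCommGroup V] [NormedSpace ℝ V] [FiniteDimensional ℝ V]
    (ε : ℝ) (hε : 0 < ε) : ∃ κ : ℝ, 0 < κ ∧ ∀ T : V →L[ℝ] V,
      (∀ x, |‖T x‖ ^ 2 - ‖x‖ ^ 2| ≤ κ * ‖x‖ ^ 2) →
      ∃ U : V ≃ₗᵢ[ℝ] V, ∀ x, ‖T x - U x‖ ≤ ε * ‖x‖ := by
  by_contra hcon
  push Not at hcon
  have h1 : ∀ n : ℕ, ∃ T : V →L[ℝ] V,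
      (∀ x, |‖T x‖ ^ 2 - ‖x‖ ^ 2| ≤ 1 / ((n : ℝ) + 1) * ‖x‖ ^ 2) ∧
      ∀ U : V ≃ₗᵢ[ℝ] V, ∃ x, ε * ‖x‖ < ‖T x - U x‖ :=
    fun n => hcon _ (by positivity)
  choose T hT1 hT2 using h1
  have hb : ∀ n, ‖T n‖ ≤ 2 := by
    intro n
    apply ContinuousLinearMap.opNorm_le_bound _ (by norm_num)
    intro x
    have h2 := (abs_le.mp (hT1 n x)).2
    have h3 : 1 / ((n : ℝ) + 1) ≤ 1 := by
      rw [div_le_one (by positivity)]
      have : (0 : ℝ) ≤ n := Nat.cast_nonneg n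
      linarith
    have h4 : 1 / ((n : ℝ) + 1) * ‖x‖ ^ 2 ≤ 1 * ‖x‖ ^ 2 := by gcongr
    have h5 : ‖T n x‖ ^ 2 ≤ (2 * ‖x‖) ^ 2 := by nlinarith [sq_nonneg ‖x‖]
    exact abs_le_of_sq_le_sq' h5 (by positivity) |>.2
  haveI : ProperSpace (V →L[ℝ] V) := FiniteDimensional.proper_real _
  obtain ⟨T0, -, φ, hφ, hlim⟩ := tendsto_subseq_of_bounded
    (Metric.isBounded_closedBall (x := (0 : V →L[ℝ] V)) (r := 2)) (x := T) (fun n => by
      rw [mem_closedBall_zero_iff]; exact hb n)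
  have hpt : ∀ x, Tendsto (fun n => T (φ n) x) atTop (𝓝 (T0 x)) := by
    intro x
    exact ((ContinuousLinearMap.apply ℝ V x).continuous.tendsto T0).comp hlim
  have hiso : ∀ x, ‖T0 x‖ = ‖x‖ := by
    intro x
    have h2 : Tendsto (fun n => |‖T (φ n) x‖ ^ 2 - ‖x‖ ^ 2|) atTop
        (𝓝 |‖T0 x‖ ^ 2 - ‖x‖ ^ 2|) :=
      ((((hpt x).norm.pow 2).sub_const _)).abs
    have h3 : Tendsto (fun n => 1 / (((φ n : ℕ) : ℝ) + 1) * ‖x‖ ^ 2) atTop (𝓝 (0 * ‖x‖ ^ 2)) := by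
      apply Tendsto.mul_const
      exact (tendsto_one_div_add_atTop_nhds_zero_nat (𝕜 := ℝ)).comp hφ.tendsto_atTop
    have h4 := le_of_tendsto_of_tendsto' h2 h3 (fun n => hT1 (φ n) x)
    rw [zero_mul] at h4
    have h5 : ‖T0 x‖ ^ 2 - ‖x‖ ^ 2 = 0 := abs_eq_zero.mp (le_antisymm h4 (abs_nonneg _))
    exact (pow_left_inj₀ (norm_nonneg _) (norm_nonneg _) two_ne_zero).mp (by linarith)
  let L0 : V →ₗᵢ[ℝ] V := ⟨T0.toLinearMap, hiso⟩
  let U0 : V ≃ₗᵢ[ℝ] V := L0.toLinearIsometryEquiv rfl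
  have hU0 : ∀ x, U0 x = T0 x := fun x => rfl
  have h6 : ∀ᶠ n in atTop, ‖T (φ n) - T0‖ < ε := by
    have := (tendsto_iff_norm_sub_tendsto_zero.mp hlim)
    exact this.eventually (gt_mem_nhds hε)
  obtain ⟨n, hn⟩ := h6.exists
  obtain ⟨x, hx⟩ := hT2 (φ n) U0
  rw [hU0] at hx
  have h7 : ‖T (φ n) x - T0 x‖ ≤ ‖T (φ n) - T0‖ * ‖x‖ := (T (φ n) - T0).le_opNorm x
  have h8 : ‖T (φ n) - T0‖ * ‖x‖ ≤ ε * ‖x‖ := by gcongr
  linarith

/-- the sum of the defects -/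
noncomputable def D (A B : X) : ℝ := 2 * ‖A‖ ^ 2 + 2 * ‖B‖ ^ 2 - ‖A + B‖ ^ 2

theorem dfc_hasSum (A B : X) : HasSum (fun j => dfc (lam j) (A j) (B j)) (D A B) :=
  (((sq_hasSum A).mul_left 2).add ((sq_hasSum B).mul_left 2)).sub (sq_hasSum (A + B))

theorem tst_hasSum (l : ℝ) (u w : X) : HasSum (fun j => tst l (u j) (w j) (lam j))
    (D (u + (1 / l - 1) • w) ((1 / l - 1) • u + w) + D ((1 / l - 1) • u + w) (w - u) +
      D (w - u) (-(u + (1 / l - 1) • w))) :=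
  ((dfc_hasSum (u + (1 / l - 1) • w) ((1 / l - 1) • u + w)).add
    (dfc_hasSum ((1 / l - 1) • u + w) (w - u))).add
      (dfc_hasSum (w - u) (-(u + (1 / l - 1) • w)))

theorem D_le (A B : X) (δ : ℝ) (hδ : δ ≤ 1) (hA : ‖A‖ ≤ 1 + δ) (hB : ‖B‖ ≤ 1 + δ)
    (hAB : (1 - δ) * 2 ≤ ‖A + B‖) : D A B ≤ 16 * δ := by
  unfold D
  have h1 := norm_nonneg A
  have h2 := norm_nonneg B
  have h3 : ‖A‖ ^ 2 ≤ (1 + δ) ^ 2 := by gcongr
  have h4 : ‖B‖ ^ 2 ≤ (1 + δ) ^ 2 := by gcongr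
  have h5 : ((1 - δ) * 2) ^ 2 ≤ ‖A + B‖ ^ 2 := by
    have : 0 ≤ (1 - δ) * 2 := by linarith
    gcongr
  nlinarith

theorem sub_sg_norm (f : X) (i : ℕ) : ‖f - sg i (f i)‖ ^ 2 = ‖f‖ ^ 2 - ‖f i‖ ^ 2 := by
  have h1 := sq_hasSum (f - sg i (f i))
  have h2 := (sq_hasSum f).sub (hasSum_ite_eq i (‖f i‖ ^ 2))
  have h3 : (fun j => ‖(f - sg i (f i)) j‖ ^ 2) =
      fun j => ‖f j‖ ^ 2 - (if j = i then ‖f i‖ ^ 2 else 0) := by
    funext j
    rw [sub_coord]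
    by_cases h : j = i
    · subst h
      rw [sg_self, if_pos rfl, sub_self, sub_self, norm_zero]
      norm_num
    · rw [sg_ne i _ h, if_neg h, sub_zero, sub_zero]
  rw [h3] at h1
  exact h1.unique h2

/-- vectors of the plane -/
def vec (i : ℕ) (a b : ℝ) : E i := ((a, b) : ℝ × ℝ)

theorem vec_eq (i : ℕ) (x : E i) : x = x.1 • vec i 1 0 + x.2 • vec i 0 1 := by
  apply Prod.ext
  · show x.1 = x.1 * 1 + x.2 * 0
    ring
  · show x.2 = x.1 * 0 + x.2 * 1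
    ring

theorem vec_comb (i : ℕ) (a b : ℝ) : a • vec i 1 0 + b • vec i 0 1 = vec i a b := by
  apply Prod.ext
  · show a * 1 + b * 0 = a
    ring
  · show a * 0 + b * 1 = b
    ring

theorem vec_add (i : ℕ) (a b c d : ℝ) : vec i a b + vec i c d = vec i (a + c) (b + d) := rfl

theorem norm_vec (i : ℕ) (a b : ℝ) :
    ‖vec i a b‖ = max (max |a| |b|) (lam i * |a + b|) := rfl

/-- The part of the image outside the own block is small. -/
theorem offdiag (i : ℕ) : ∃ C : ℝ, 0 < C ∧ ∀ δ : ℝ, 0 ≤ δ → δ ≤ 1 → ∀ S : E i →L[ℝ] X,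
    (∀ x, (1 - δ) * ‖x‖ ≤ ‖S x‖) → (∀ x, ‖S x‖ ≤ (1 + δ) * ‖x‖) →
    ∀ x, ‖S x‖ ^ 2 - ‖S x i‖ ^ 2 ≤ C * δ * ‖x‖ ^ 2 := by
  obtain ⟨c, hc0, hc⟩ := tst_coercive i
  refine ⟨16 / c * 48, by positivity, ?_⟩
  intro δ hδ0 hδ S hlo hhi x
  set l := lam i with hl
  have hl1 := lam_lo i
  have hl2 := lam_hi i
  rw [← hl] at hl1 hl2
  set t : ℝ := 1 / l - 1 with ht
  have hl0 : 0 < l := by linarith
  have hlt : l * (1 + t) = 1 := by rw [ht]; field_simp; ring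
  have ht0 : 0 < t := by nlinarith
  have ht1 : t < 1 := by nlinarith
  set u : X := S (vec i 1 0) with hu
  set w : X := S (vec i 0 1) with hw
  have hS : ∀ a b : ℝ, S (vec i a b) = a • u + b • w := by
    intro a b
    rw [← vec_comb, map_add, map_smul, map_smul]
  have n1 : ‖vec i 1 t‖ = 1 := by
    rw [norm_vec, ← hl, abs_of_pos ht0, abs_one, abs_of_pos (by linarith), hlt,
      max_eq_left ht1.le, max_self]
  have n2 : ‖vec i t 1‖ = 1 := by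
    rw [norm_vec, ← hl, abs_of_pos ht0, abs_one, abs_of_pos (by linarith), add_comm t 1, hlt,
      max_eq_right ht1.le, max_self]
  have n3 : ‖vec i (-1) 1‖ = 1 := by
    rw [norm_vec, ← hl, abs_neg, abs_one, neg_add_cancel, abs_zero, mul_zero, max_self]
    norm_num
  have n12 : ‖vec i 1 t + vec i t 1‖ = 2 := by
    rw [vec_add, norm_vec, ← hl, add_comm t 1, max_self, abs_of_pos (by linarith),
      abs_of_pos (by linarith)]
    have : l * (1 + t + (1 + t)) = 2 := by linarith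
    rw [this, max_eq_right (by linarith)]
  have n23 : ‖vec i t 1 + vec i (-1) 1‖ = 2 := by
    rw [vec_add, norm_vec, ← hl]
    have e1 : |t + -1| ≤ 2 := by rw [abs_le]; constructor <;> linarith
    have e2 : |(1 : ℝ) + 1| = 2 := by norm_num
    have e3 : t + -1 + (1 + 1) = 1 + t := by ring
    rw [e2, max_eq_right e1, e3, abs_of_pos (by linarith), hlt]
    norm_num
  have n31 : ‖vec i (-1) 1 + -vec i 1 t‖ = 2 := by
    have e0 : vec i (-1) 1 + -vec i 1 t = vec i (-2) (1 - t) := by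
      apply Prod.ext
      · show (-1 : ℝ) + -1 = -2
        norm_num
      · show (1 : ℝ) + -t = 1 - t
        ring
    rw [e0, norm_vec, ← hl]
    have e1 : |1 - t| ≤ 2 := by rw [abs_le]; constructor <;> linarith
    have e2 : |(-2 : ℝ)| = 2 := by norm_num
    have e3 : -2 + (1 - t) = -(1 + t) := by ring
    rw [e2, max_eq_left e1, e3, abs_neg, abs_of_pos (by linarith), hlt]
    norm_num
  have v1 : S (vec i 1 t) = u + t • w := by rw [hS, one_smul]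
  have v2 : S (vec i t 1) = t • u + w := by rw [hS, one_smul]
  have v3 : S (vec i (-1) 1) = w - u := by rw [hS, one_smul, neg_one_smul]; abel
  have b1 : D (u + t • w) (t • u + w) ≤ 16 * δ := by
    apply D_le _ _ δ hδ
    · rw [← v1]; have := hhi (vec i 1 t); rw [n1, mul_one] at this; exact this
    · rw [← v2]; have := hhi (vec i t 1); rw [n2, mul_one] at this; exact this
    · rw [← v1, ← v2, ← map_add]
      have := hlo (vec i 1 t + vec i t 1); rw [n12] at this; exact this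
  have b2 : D (t • u + w) (w - u) ≤ 16 * δ := by
    apply D_le _ _ δ hδ
    · rw [← v2]; have := hhi (vec i t 1); rw [n2, mul_one] at this; exact this
    · rw [← v3]; have := hhi (vec i (-1) 1); rw [n3, mul_one] at this; exact this
    · rw [← v2, ← v3, ← map_add]
      have := hlo (vec i t 1 + vec i (-1) 1); rw [n23] at this; exact this
  have b3 : D (w - u) (-(u + t • w)) ≤ 16 * δ := by
    apply D_le _ _ δ hδ
    · rw [← v3]; have := hhi (vec i (-1) 1); rw [n3, mul_one] at this; exact this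
    · rw [norm_neg, ← v1]; have := hhi (vec i 1 t); rw [n1, mul_one] at this; exact this
    · rw [← v3, ← v1, ← map_neg, ← map_add]
      have := hlo (vec i (-1) 1 + -vec i 1 t); rw [n31] at this; exact this
  have hts := tst_hasSum l u w
  rw [← ht] at hts
  -- termwise comparison
  have hx1 := abs_fst_le i x
  have hx2 := abs_snd_le i x
  have hSx : ∀ j, S x j = x.1 • u j + x.2 • w j := by
    intro j
    have h := hS x.1 x.2
    have h' : vec i x.1 x.2 = x := rfl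
    rw [h'] at h
    rw [h]
    rfl
  have hterm : ∀ j, ‖S x j‖ ^ 2 - (if j = i then ‖S x i‖ ^ 2 else 0) ≤
      (16 / c * ‖x‖ ^ 2) * tst l (u j) (w j) (lam j) := by
    intro j
    have hpos : 0 ≤ tst l (u j) (w j) (lam j) := tst_nonneg (lam_nonneg j) _ _
    by_cases h : j = i
    · subst h
      rw [if_pos rfl, sub_self]
      positivity
    · rw [if_neg h, sub_zero]
      have h1 := hc j h (u j) (w j)
      set mm : ℝ := ‖(((u j : ℝ × ℝ), (w j : ℝ × ℝ)) : (ℝ × ℝ) × (ℝ × ℝ))‖ with hmm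
      have hmm0 : 0 ≤ mm := norm_nonneg _
      have hu1 : ‖u j‖ ≤ 2 * mm := (norm_le_pair j (u j) (w j)).1
      have hw1 : ‖w j‖ ≤ 2 * mm := (norm_le_pair j (u j) (w j)).2
      have h2 : ‖S x j‖ ≤ 4 * mm * ‖x‖ := by
        rw [hSx]
        calc ‖x.1 • u j + x.2 • w j‖ ≤ ‖x.1 • u j‖ + ‖x.2 • w j‖ := norm_add_le _ _
          _ = |x.1| * ‖u j‖ + |x.2| * ‖w j‖ := by rw [norm_smul, norm_smul]; rfl
          _ ≤ ‖x‖ * (2 * mm) + ‖x‖ * (2 * mm) := by gcongr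
          _ = 4 * mm * ‖x‖ := by ring
      calc ‖S x j‖ ^ 2 ≤ (4 * mm * ‖x‖) ^ 2 := by gcongr
        _ = (16 / c * ‖x‖ ^ 2) * (c * mm ^ 2) := by field_simp; ring
        _ ≤ _ := by gcongr
  have hsum := (sq_hasSum (S x)).sub (hasSum_ite_eq i (‖S x i‖ ^ 2))
  have h9 := hasSum_le hterm hsum (hts.mul_left (16 / c * ‖x‖ ^ 2))
  refine h9.trans ?_
  calc (16 / c * ‖x‖ ^ 2) * (D (u + t • w) (t • u + w) + D (t • u + w) (w - u) +
        D (w - u) (-(u + t • w))) ≤ (16 / c * ‖x‖ ^ 2) * (48 * δ) := by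
        gcongr
        linarith
    _ = 16 / c * 48 * δ * ‖x‖ ^ 2 := by ring

/-- Almost isometric embeddings of a block are close to isometries onto this block. -/
theorem block (i : ℕ) (ε : ℝ) (hε : 0 < ε) : ∃ δ : ℝ, 0 < δ ∧ δ ≤ 1 ∧ ∀ S : E i →L[ℝ] X,
    (∀ x, (1 - δ) * ‖x‖ ≤ ‖S x‖) → (∀ x, ‖S x‖ ≤ (1 + δ) * ‖x‖) →
    ∃ U : E i ≃ₗᵢ[ℝ] E i, ∀ x, ‖S x - sg i (U x)‖ ≤ ε * ‖x‖ := by
  obtain ⟨C, hC0, hC⟩ := offdiag i
  obtain ⟨κ, hκ0, hκ⟩ := near_iso (E i) (ε / 2) (by positivity)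
  set δ : ℝ := min 1 (min (κ / (3 + C)) ((ε / 2) ^ 2 / C)) with hδdef
  have hδ0 : 0 < δ := lt_min one_pos (lt_min (by positivity) (by positivity))
  have hδ1 : δ ≤ 1 := min_le_left _ _
  have hδ2 : δ * (3 + C) ≤ κ := by
    have h : δ ≤ κ / (3 + C) := (min_le_right _ _).trans (min_le_left _ _)
    rwa [le_div_iff₀ (by positivity)] at h
  have hδ3 : C * δ ≤ (ε / 2) ^ 2 := by
    have h : δ ≤ (ε / 2) ^ 2 / C := (min_le_right _ _).trans (min_le_right _ _)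
    rw [le_div_iff₀ hC0] at h
    linarith
  refine ⟨δ, hδ0, hδ1, ?_⟩
  intro S hlo hhi
  have hoff := hC δ hδ0.le hδ1 S hlo hhi
  obtain ⟨U, hU⟩ := hκ ((ev i).comp S) (by
    intro x
    show |‖S x i‖ ^ 2 - ‖x‖ ^ 2| ≤ κ * ‖x‖ ^ 2
    have h1 : ‖S x i‖ ≤ ‖S x‖ := norm_coord _ _
    have h2 : ‖S x i‖ ^ 2 ≤ ‖S x‖ ^ 2 := by gcongr
    have h3 : ‖S x‖ ^ 2 ≤ ((1 + δ) * ‖x‖) ^ 2 := by
      have := hhi x
      gcongr
    have h4 : ((1 - δ) * ‖x‖) ^ 2 ≤ ‖S x‖ ^ 2 := by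
      have h5 : 0 ≤ (1 - δ) * ‖x‖ := mul_nonneg (by linarith) (norm_nonneg _)
      have := hlo x
      gcongr
    have h6 := hoff x
    have hx2 : 0 ≤ ‖x‖ ^ 2 := sq_nonneg _
    have h7 : (1 + δ) ^ 2 ≤ 1 + κ := by nlinarith
    have h8 : 1 - κ ≤ (1 - δ) ^ 2 - C * δ := by nlinarith
    rw [abs_le]
    constructor
    · have := mul_le_mul_of_nonneg_right h8 hx2
      nlinarith
    · have := mul_le_mul_of_nonneg_right h7 hx2
      nlinarith)
  refine ⟨U, ?_⟩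
  intro x
  have h1 : ‖S x - sg i (S x i)‖ ≤ ε / 2 * ‖x‖ := by
    have h2 := sub_sg_norm (S x) i
    have h3 := hoff x
    have h4 : ‖S x - sg i (S x i)‖ ^ 2 ≤ (ε / 2 * ‖x‖) ^ 2 := by
      rw [h2, mul_pow]
      exact h3.trans (by gcongr)
    exact abs_le_of_sq_le_sq' h4 (by positivity) |>.2
  have h5 : ‖sg i (S x i) - sg i (U x)‖ ≤ ε / 2 * ‖x‖ := by
    rw [← map_sub, norm_sg]
    exact hU x
  calc ‖S x - sg i (U x)‖ = ‖(S x - sg i (S x i)) + (sg i (S x i) - sg i (U x))‖ := by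
        congr 1; abel
    _ ≤ ‖S x - sg i (S x i)‖ + ‖sg i (S x i) - sg i (U x)‖ := norm_add_le _ _
    _ ≤ ε / 2 * ‖x‖ + ε / 2 * ‖x‖ := add_le_add h1 h5
    _ = ε * ‖x‖ := by ring

end Pool.Agent.Q199.GF
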