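import Mathlib

set_option autoImplicit false

namespace Pool.Agent.Q199.GF

open Filter Topology

section

variable {X : Type*} [NormedAddCommGroup X] [NormedSpace ℝ X]

/-- `Emb_δ(F, X)`: the linear maps `T : F → X` with
`(1 + δ)⁻¹ ‖x‖ ≤ ‖T x‖ ≤ (1 + δ) ‖x‖` for all `x` in `F`. -/
def Emb (δ : ℝ) (F : Submodule ℝ X) : Set (F →ₗ[ℝ] X) :=
  {T | ∀ x : F, (1 + δ)⁻¹ * ‖x‖ ≤ ‖T x‖ ∧ ‖T x‖ ≤ (1 + δ) * ‖x‖}

/-- The group of surjective linear isometries of `X` acts `ε`-transitively on the restrictions to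
the subspace `E` of the members of `Emb_δ(F, X)`: for any two members `S`, `S'` some surjective
linear isometry `T` has `‖(S' - T ∘ S)|_E‖ < ε` in the operator norm. -/
def Transitive (ε : ℝ) (E F : Submodule ℝ X) (δ : ℝ) : Prop :=
  ∀ S ∈ Emb δ F, ∀ S' ∈ Emb δ F, ∃ T : X ≃ₗᵢ[ℝ] X, ∃ c : ℝ, c < ε ∧
    ∀ x : F, (x : X) ∈ E → ‖S' x - T (S x)‖ ≤ c * ‖x‖

end

/-- `X` is guarded Fraisse. -/
def GuardedFraisse (X : Type*) [NormedAddCommGroup X] [NormedSpace ℝ X] : Prop :=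
  ∀ E : Submodule ℝ X, FiniteDimensional ℝ E → ∀ ε : ℝ, 0 < ε →
    ∃ δ : ℝ, 0 < δ ∧ ∃ F : Submodule ℝ X, FiniteDimensional ℝ F ∧ E ≤ F ∧ Transitive ε E F δ

/-- `X` is cofinally Fraisse. -/
def CofinallyFraisse (X : Type*) [NormedAddCommGroup X] [NormedSpace ℝ X] : Prop :=
  ∀ ε : ℝ, 0 < ε → ∀ E : Submodule ℝ X, FiniteDimensional ℝ E →
    ∃ F : Submodule ℝ X, FiniteDimensional ℝ F ∧ E ≤ F ∧ ∃ δ : ℝ, 0 < δ ∧ Transitive ε F F δ

/-- The closure of the orbit of the `n`-tuple `z` under the diagonal action of the group of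
surjective linear isometries, in the max-metric. -/
def orbitClosure {X : Type*} [NormedAddCommGroup X] [NormedSpace ℝ X] {n : ℕ} (z : Fin n → X) :
    Set (Fin n → X) :=
  closure {w | ∃ T : X ≃ₗᵢ[ℝ] X, w = fun i => T (z i)}

/-- The distance `inf {d(z, z') : z ∈ A, z' ∈ B}` of two sets of `n`-tuples. -/
noncomputable def rho {X : Type*} [NormedAddCommGroup X] [NormedSpace ℝ X] {n : ℕ}
    (A B : Set (Fin n → X)) : ℝ :=
  sInf {d | ∃ z ∈ A, ∃ z' ∈ B, d = dist z z'}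

/-- `X` is `ω`-categorical: for every `n` the metric space of the orbit closures of the `n`-tuples
of the closed unit ball, with the distance `rho`, is (sequentially) compact. -/
def OmegaCategorical (X : Type*) [NormedAddCommGroup X] [NormedSpace ℝ X] : Prop :=
  ∀ (n : ℕ) (z : ℕ → Fin n → X), (∀ m i, ‖z m i‖ ≤ 1) →
    ∃ z₀ : Fin n → X, (∀ i, ‖z₀ i‖ ≤ 1) ∧ ∃ φ : ℕ → ℕ, StrictMono φ ∧
      Tendsto (fun m => rho (orbitClosure (z (φ m))) (orbitClosure z₀)) atTop (𝓝 0)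

theorem CofinallyFraisse.guarded {X : Type*} [NormedAddCommGroup X] [NormedSpace ℝ X]
    (h : CofinallyFraisse X) : GuardedFraisse X := by
  intro E hE ε hε
  obtain ⟨F, hF, hEF, δ, hδ, ht⟩ := h ε hε E hE
  refine ⟨δ, hδ, F, hF, hEF, ?_⟩
  intro S hS S' hS'
  obtain ⟨T, c, hc, hx⟩ := ht S hS S' hS'
  exact ⟨T, c, hc, fun x _ => hx x x.2⟩

end Pool.Agent.Q199.GF
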