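import Pool.Agent.Q199.GF.Block
import Pool.Agent.Q199.GF.Defs

set_option autoImplicit false

namespace Pool.Agent.Q199.GF

open Filter Topology
open scoped ENNReal

theorem unif (W : Submodule ℝ X) [FiniteDimensional ℝ W] (T : ℕ → W →L[ℝ] X)
    (h : ∀ x, Tendsto (fun k => T k x) atTop (𝓝 0)) (η : ℝ) (hη : 0 < η) :
    ∀ᶠ k in atTop, ‖T k‖ ≤ η := by
  let v := Module.finBasis ℝ W
  obtain ⟨C, hC, hv⟩ := v.exists_opNorm_le (F := X)
  have h1 : ∀ᶠ k in atTop, ∀ i, ‖T k (v i)‖ ≤ η / C := by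
    rw [Filter.eventually_all]
    intro i
    have h2 : Tendsto (fun k => ‖T k (v i)‖) atTop (𝓝 0) := by
      have := (h (v i)).norm
      rwa [norm_zero] at this
    exact h2.eventually (ge_mem_nhds (by positivity))
  filter_upwards [h1] with k hk
  have h3 := hv (u := T k) (M := η / C) (by positivity) hk
  rwa [mul_div_cancel₀ _ hC.ne'] at h3

/-- the tails on a subspace -/
noncomputable def Qs (W : Submodule ℝ X) (k : ℕ) : W →L[ℝ] X :=
  W.subtypeL - (P k).comp W.subtypeL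

theorem Qs_apply (W : Submodule ℝ X) (k : ℕ) (x : W) : Qs W k x = x - P k x := rfl

theorem Qs_small (W : Submodule ℝ X) [FiniteDimensional ℝ W] (η : ℝ) (hη : 0 < η) :
    ∀ᶠ k in atTop, ‖Qs W k‖ ≤ η := by
  apply unif W (Qs W) _ η hη
  intro x
  have h := (P_tendsto (x : X)).const_sub (x : X)
  rw [sub_self] at h
  exact h

theorem exists_B (W : Submodule ℝ X) [FiniteDimensional ℝ W] : ∃ k0 : ℕ, ∃ B : X →L[ℝ] X,
    (∀ x, B x ∈ W) ∧ (∀ x ∈ W, B x = x) ∧ (∀ x, B (P k0 x) = B x) := by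
  obtain ⟨k0, hk0⟩ := (Qs_small W (1 / 2) (by norm_num)).exists
  have hinj : LinearMap.ker ((P k0).toLinearMap ∘ₗ W.subtype) = ⊥ := by
    rw [LinearMap.ker_eq_bot']
    intro x hx
    have h1 : P k0 (x : X) = 0 := hx
    have h2 : ‖(x : X)‖ ≤ 1 / 2 * ‖x‖ := by
      have h3 := (Qs W k0).le_opNorm x
      rw [Qs_apply, h1, sub_zero] at h3
      exact h3.trans (by gcongr)
    have h4 : ‖(x : X)‖ = ‖x‖ := rfl
    rw [h4] at h2
    have h5 : ‖x‖ = 0 := le_antisymm (by linarith) (norm_nonneg _)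
    exact norm_eq_zero.mp h5
  obtain ⟨g, hg⟩ := ((P k0).toLinearMap ∘ₗ W.subtype).exists_leftInverse_of_injective hinj
  have hmem : ∀ x, P k0 x ∈ G k0 := fun x => ⟨x, rfl⟩
  let g' : G k0 →L[ℝ] W := LinearMap.toContinuousLinearMap (g ∘ₗ (G k0).subtype)
  let B : X →L[ℝ] X := W.subtypeL.comp (g'.comp ((P k0).codRestrict (G k0) hmem))
  have hB : ∀ x, B x = (g (P k0 x) : X) := fun x => rfl
  refine ⟨k0, B, fun x => ?_, fun x hx => ?_, fun x => ?_⟩
  · rw [hB]; exact (g (P k0 x)).2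
  · rw [hB]
    have h := congrArg (fun T => T (⟨x, hx⟩ : W)) hg
    have h2 : g (P k0 x) = (⟨x, hx⟩ : W) := h
    rw [h2]
  · rw [hB, hB, P_P, min_self]

theorem exists_min (f : ℕ → ℝ) (hf : ∀ i, 0 < f i) (k : ℕ) :
    ∃ m : ℝ, 0 < m ∧ ∀ i < k, m ≤ f i := by
  induction k with
  | zero => exact ⟨1, one_pos, fun i hi => absurd hi (Nat.not_lt_zero i)⟩
  | succ k ih =>
    obtain ⟨m, hm, h⟩ := ih
    refine ⟨min m (f k), lt_min hm (hf k), ?_⟩
    intro i hi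
    rcases Nat.lt_succ_iff_lt_or_eq.mp hi with h1 | h1
    · exact (min_le_left _ _).trans (h i h1)
    · rw [h1]; exact min_le_right _ _

theorem geom (k : ℕ) : ∑ i ∈ Finset.range k, (1 / 2 : ℝ) ^ (i + 1) = 1 - (1 / 2) ^ k := by
  induction k with
  | zero => simp
  | succ k ih => rw [Finset.sum_range_succ, ih]; ring

theorem sg_mem_G {k i : ℕ} (h : i < k) (a : E i) : sg i a ∈ G k := mem_G.mpr (P_sg_lt h a)

/-- Assembling block isometries. -/
theorem assemble (k : ℕ) (S : G k →ₗ[ℝ] X) (e : ℕ → ℝ)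
    (h : ∀ i (hi : i < k), ∃ U : E i ≃ₗᵢ[ℝ] E i, ∀ x : E i,
      ‖S ⟨sg i x, sg_mem_G hi x⟩ - sg i (U x)‖ ≤ e i * ‖x‖) (he : ∀ i, 0 ≤ e i) :
    ∃ V : X ≃ₗᵢ[ℝ] X, ∀ x : G k, ‖S x - V x‖ ≤ (∑ i ∈ Finset.range k, e i) * ‖x‖ := by
  have h' : ∀ i, ∃ U : E i ≃ₗᵢ[ℝ] E i, ∀ hi : i < k, ∀ x : E i,
      ‖S ⟨sg i x, sg_mem_G hi x⟩ - sg i (U x)‖ ≤ e i * ‖x‖ := by
    intro i
    by_cases hi : i < k
    · obtain ⟨U, hU⟩ := h i hi
      exact ⟨U, fun _ => hU⟩
    · exact ⟨LinearIsometryEquiv.refl ℝ (E i), fun hi2 => absurd hi2 hi⟩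
  choose U hU using h'
  refine ⟨blk U, ?_⟩
  intro x
  have hx : x = ∑ i : Fin k, (⟨sg i ((x : X) i), sg_mem_G i.2 _⟩ : G k) := by
    apply Subtype.ext
    rw [AddSubmonoidClass.coe_finset_sum, ← Finset.sum_range (fun i => sg i ((x : X) i))]
    exact sum_G x.2
  have h1 : S x = ∑ i : Fin k, S ⟨sg i ((x : X) i), sg_mem_G i.2 _⟩ := by
    conv_lhs => rw [hx]
    rw [map_sum]
  have h2 : blk U (x : X) = ∑ i : Fin k, sg i (U i ((x : X) i)) := by
    conv_lhs => rw [sum_G x.2]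
    rw [map_sum, Finset.sum_range]
    apply Finset.sum_congr rfl
    intro i _
    rw [blk_sg]
  rw [h1, h2, ← Finset.sum_sub_distrib, Finset.sum_range, Finset.sum_mul]
  refine (norm_sum_le _ _).trans (Finset.sum_le_sum fun i _ => ?_)
  refine (hU i i.2 _).trans ?_
  exact mul_le_mul_of_nonneg_left (norm_coord _ _) (he i)

theorem cofinal : CofinallyFraisse X := by
  intro ε hε W hW
  haveI := hW
  obtain ⟨k0, B, hB1, hB2, hB3⟩ := exists_B W
  choose d hd0 hd1 hd using block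
  set ε' : ℝ := ε / 8 with hε'
  have hε'0 : 0 < ε' := by positivity
  set e : ℕ → ℝ := fun i => ε' * (1 / 2) ^ (i + 1) with he
  have he0 : ∀ i, 0 < e i := fun i => by positivity
  have hesum : ∀ k, ∑ i ∈ Finset.range k, e i ≤ ε' := by
    intro k
    rw [he, ← Finset.mul_sum, geom]
    have : (0 : ℝ) ≤ (1 / 2) ^ k := by positivity
    nlinarith
  obtain ⟨δs, hδs0, hδs⟩ := exists_min (fun i => d i (e i) (he0 i)) (fun i => hd0 i _ _) k0
  set η : ℝ := min (δs / 4) (1 / 2) with hη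
  have hη0 : 0 < η := lt_min (by positivity) (by norm_num)
  have hη1 : η ≤ δs / 4 := min_le_left _ _
  have hη2 : η ≤ 1 / 2 := min_le_right _ _
  obtain ⟨k, hk1, hk2⟩ := ((Qs_small W (η / (‖B‖ + 1)) (by positivity)).and
    (eventually_ge_atTop k0)).exists
  let K : X →L[ℝ] X := B - (P k).comp B
  have hK : ∀ x, K x = B x - P k (B x) := fun x => rfl
  have hKn : ∀ x, ‖K x‖ ≤ η * ‖x‖ := by
    intro x
    have h1 := (Qs W k).le_opNorm ⟨B x, hB1 x⟩
    rw [Qs_apply] at h1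
    have h2 : ‖(⟨B x, hB1 x⟩ : W)‖ = ‖B x‖ := rfl
    rw [h2] at h1
    have h3 : ‖B x‖ ≤ ‖B‖ * ‖x‖ := B.le_opNorm x
    calc ‖K x‖ ≤ ‖Qs W k‖ * ‖B x‖ := h1
      _ ≤ (η / (‖B‖ + 1)) * (‖B‖ * ‖x‖) := by gcongr
      _ = η * ‖x‖ * (‖B‖ / (‖B‖ + 1)) := by ring
      _ ≤ η * ‖x‖ * 1 := by
          gcongr
          rw [div_le_one (by positivity)]
          linarith
      _ = η * ‖x‖ := mul_one _
  have hup : ∀ x, ‖x + K x‖ ≤ (1 + η) * ‖x‖ := by
    intro x
    have := norm_add_le x (K x)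
    have := hKn x
    linarith
  have hdown : ∀ x, (1 - η) * ‖x‖ ≤ ‖x + K x‖ := by
    intro x
    have h1 : ‖x‖ ≤ ‖x + K x‖ + ‖K x‖ := by
      calc ‖x‖ = ‖(x + K x) - K x‖ := by rw [add_sub_cancel_right]
        _ ≤ _ := norm_sub_le _ _
    have := hKn x
    linarith
  let A : X →ₗ[ℝ] X := LinearMap.id + K.toLinearMap
  have hA : ∀ x, A x = x + K x := fun x => rfl
  refine ⟨(G k).map A, inferInstance, ?_, ?_⟩
  · intro x hx
    refine ⟨P k x, ⟨x, rfl⟩, ?_⟩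
    have h1 : B (P k x) = x := by
      rw [← hB3 (P k x), P_P, min_eq_left hk2, hB3, hB2 x hx]
    rw [hA, hK, h1]
    abel
  obtain ⟨δt, hδt0, hδt⟩ := exists_min (fun i => d i (e i) (he0 i)) (fun i => hd0 i _ _) k
  set δ : ℝ := min (min (δs / 4) δt) 1 with hδ
  have hδ0 : 0 < δ := lt_min (lt_min (by positivity) hδt0) one_pos
  have hδ1 : δ ≤ δs / 4 := (min_le_left _ _).trans (min_le_left _ _)
  have hδ2 : δ ≤ δt := (min_le_left _ _).trans (min_le_right _ _)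
  have hδ3 : δ ≤ 1 := min_le_right _ _
  refine ⟨δ, hδ0, ?_⟩
  -- closeness to a block isometry
  have key : ∀ S ∈ Emb δ ((G k).map A), ∃ V : X ≃ₗᵢ[ℝ] X, ∀ x : G k,
      ‖S ⟨A x, ⟨x, x.2, rfl⟩⟩ - V x‖ ≤ ε' * ‖x‖ := by
    intro S hS
    let J : G k →ₗ[ℝ] (G k).map A :=
      { toFun := fun x => ⟨A x, ⟨x, x.2, rfl⟩⟩
        map_add' := fun x y => Subtype.ext (A.map_add x y)
        map_smul' := fun c x => Subtype.ext (A.map_smul c x) }
    have hJn : ∀ x, ‖J x‖ = ‖(x : X) + K x‖ := fun x => rfl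
    have hSlo : ∀ y, (1 - δ) * ‖y‖ ≤ ‖S y‖ := by
      intro y
      have h1 := (hS y).1
      have h2 : 1 - δ ≤ (1 + δ)⁻¹ := by
        have h3 : 1 - δ ≤ 1 / (1 + δ) := by
          rw [le_div_iff₀ (by linarith)]
          nlinarith
        rwa [one_div] at h3
      calc (1 - δ) * ‖y‖ ≤ (1 + δ)⁻¹ * ‖y‖ := by gcongr
        _ ≤ _ := h1
    obtain ⟨V, hV⟩ := assemble k (S ∘ₗ J) e (by
      intro i hi
      let T : E i →L[ℝ] X := LinearMap.toContinuousLinearMap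
        ({ toFun := fun x => S (J ⟨sg i x, sg_mem_G hi x⟩)
           map_add' := fun x y => by
            have : (⟨sg i (x + y), sg_mem_G hi (x + y)⟩ : G k) =
              ⟨sg i x, sg_mem_G hi x⟩ + ⟨sg i y, sg_mem_G hi y⟩ :=
              Subtype.ext ((sg i).map_add x y)
            rw [this, map_add, map_add]
           map_smul' := fun c x => by
            have : (⟨sg i (c • x), sg_mem_G hi (c • x)⟩ : G k) =
              c • ⟨sg i x, sg_mem_G hi x⟩ := Subtype.ext ((sg i).map_smul c x)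
            rw [this, map_smul, map_smul]
            rfl } : E i →ₗ[ℝ] X)
      have hT : ∀ x, T x = S (J ⟨sg i x, sg_mem_G hi x⟩) := fun x => rfl
      have hKz : k0 ≤ i → ∀ x : E i, sg i x + K (sg i x) = sg i x := by
        intro hki x
        have h1 : B (sg i x) = 0 := by rw [← hB3, P_sg_ge hki, map_zero]
        rw [hK, h1, map_zero, sub_zero, add_zero]
      have hlow : ∀ x : E i, (1 - d i (e i) (he0 i)) * ‖x‖ ≤ (1 - δ) * ‖sg i x + K (sg i x)‖ := by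
        intro x
        have hx0 := norm_nonneg x
        rcases lt_or_ge i k0 with h | h
        · have h1 := hdown (sg i x)
          rw [norm_sg] at h1
          have h2 := hδs i h
          have h3 : 1 - d i (e i) (he0 i) ≤ (1 - δ) * (1 - η) := by nlinarith
          calc (1 - d i (e i) (he0 i)) * ‖x‖ ≤ ((1 - δ) * (1 - η)) * ‖x‖ := by gcongr
            _ = (1 - δ) * ((1 - η) * ‖x‖) := by ring
            _ ≤ _ := mul_le_mul_of_nonneg_left h1 (by linarith)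
        · rw [hKz h, norm_sg]
          have h2 := hδt i hi
          gcongr
          linarith
      have hhigh : ∀ x : E i, (1 + δ) * ‖sg i x + K (sg i x)‖ ≤ (1 + d i (e i) (he0 i)) * ‖x‖ := by
        intro x
        have hx0 := norm_nonneg x
        rcases lt_or_ge i k0 with h | h
        · have h1 := hup (sg i x)
          rw [norm_sg] at h1
          have h2 := hδs i h
          have h3 : (1 + δ) * (1 + η) ≤ 1 + d i (e i) (he0 i) := by nlinarith
          calc (1 + δ) * ‖sg i x + K (sg i x)‖ ≤ (1 + δ) * ((1 + η) * ‖x‖) :=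
                mul_le_mul_of_nonneg_left h1 (by linarith)
            _ = ((1 + δ) * (1 + η)) * ‖x‖ := by ring
            _ ≤ _ := by gcongr
        · rw [hKz h, norm_sg]
          have h2 := hδt i hi
          gcongr
          linarith
      apply hd i (e i) (he0 i) T
      · intro x
        rw [hT]
        have h1 := hSlo (J ⟨sg i x, sg_mem_G hi x⟩)
        rw [hJn] at h1
        exact (hlow x).trans h1
      · intro x
        rw [hT]
        have h1 := (hS (J ⟨sg i x, sg_mem_G hi x⟩)).2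
        rw [hJn] at h1
        exact h1.trans (hhigh x)) (fun i => (he0 i).le)
    refine ⟨V, ?_⟩
    intro x
    refine (hV x).trans ?_
    gcongr
    exact hesum k
  intro S hS S' hS'
  obtain ⟨V, hV⟩ := key S hS
  obtain ⟨V', hV'⟩ := key S' hS'
  refine ⟨V.symm.trans V', ε / 2, by linarith, ?_⟩
  rintro ⟨_, ⟨x, hx, rfl⟩⟩ _
  have h1 := hV ⟨x, hx⟩
  have h2 := hV' ⟨x, hx⟩
  have h3 : (V.symm.trans V') (S ⟨A x, ⟨x, hx, rfl⟩⟩) = V' (V.symm (S ⟨A x, ⟨x, hx, rfl⟩⟩)) := rfl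
  rw [h3]
  have h4 : ‖V' x - V' (V.symm (S ⟨A x, ⟨x, hx, rfl⟩⟩))‖ ≤ ε' * ‖x‖ := by
    rw [← map_sub, V'.norm_map]
    have : x - V.symm (S ⟨A x, ⟨x, hx, rfl⟩⟩) = V.symm (V x - S ⟨A x, ⟨x, hx, rfl⟩⟩) := by
      rw [map_sub, V.symm_apply_apply]
    rw [this, V.symm.norm_map, norm_sub_rev]
    exact h1
  have h5 : ‖x‖ ≤ 2 * ‖A x‖ := by
    have := hdown x
    rw [hA]
    nlinarith [norm_nonneg x]
  have h6 : ‖(⟨A x, ⟨x, hx, rfl⟩⟩ : (G k).map A)‖ = ‖A x‖ := rfl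
  rw [h6]
  calc ‖S' ⟨A x, ⟨x, hx, rfl⟩⟩ - V' (V.symm (S ⟨A x, ⟨x, hx, rfl⟩⟩))‖
      = ‖(S' ⟨A x, ⟨x, hx, rfl⟩⟩ - V' x) + (V' x - V' (V.symm (S ⟨A x, ⟨x, hx, rfl⟩⟩)))‖ := by
        congr 1; abel
    _ ≤ ε' * ‖x‖ + ε' * ‖x‖ := (norm_add_le _ _).trans (add_le_add h2 h4)
    _ ≤ ε / 2 * ‖A x‖ := by rw [hε']; nlinarith

end Pool.Agent.Q199.GF
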