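import Mathlib

set_option autoImplicit false

namespace Pool.Agent.Q199.GF

/-- The hexagonal norm with parameter `l` on the plane. -/
noncomputable def hx (l : ℝ) (p : ℝ × ℝ) : ℝ := max (max |p.1| |p.2|) (l * |p.1 + p.2|)

theorem hx_fst (l : ℝ) (p : ℝ × ℝ) : |p.1| ≤ hx l p := (le_max_left _ _).trans (le_max_left _ _)
theorem hx_snd (l : ℝ) (p : ℝ × ℝ) : |p.2| ≤ hx l p := (le_max_right _ _).trans (le_max_left _ _)
theorem hx_sum (l : ℝ) (p : ℝ × ℝ) : l * |p.1 + p.2| ≤ hx l p := le_max_right _ _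
theorem hx_nonneg (l : ℝ) (p : ℝ × ℝ) : 0 ≤ hx l p := (abs_nonneg _).trans (hx_fst l p)

theorem hx_le {l : ℝ} {p : ℝ × ℝ} {C : ℝ} (h1 : |p.1| ≤ C) (h2 : |p.2| ≤ C)
    (h3 : l * |p.1 + p.2| ≤ C) : hx l p ≤ C := max_le (max_le h1 h2) h3

theorem hx_add (l : ℝ) (hl : 0 ≤ l) (p q : ℝ × ℝ) : hx l (p + q) ≤ hx l p + hx l q := by
  apply hx_le
  · exact (abs_add_le _ _).trans (add_le_add (hx_fst l p) (hx_fst l q))
  · exact (abs_add_le _ _).trans (add_le_add (hx_snd l p) (hx_snd l q))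
  · have h1 : (p + q).1 + (p + q).2 = (p.1 + p.2) + (q.1 + q.2) := by
      show p.1 + q.1 + (p.2 + q.2) = _
      ring
    rw [h1]
    calc l * |p.1 + p.2 + (q.1 + q.2)| ≤ l * (|p.1 + p.2| + |q.1 + q.2|) :=
          mul_le_mul_of_nonneg_left (abs_add_le _ _) hl
      _ = l * |p.1 + p.2| + l * |q.1 + q.2| := by ring
      _ ≤ _ := add_le_add (hx_sum l p) (hx_sum l q)

theorem hx_smul (l : ℝ) (c : ℝ) (p : ℝ × ℝ) : hx l (c • p) = |c| * hx l p := by
  unfold hx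
  have h1 : (c • p).1 = c * p.1 := rfl
  have h2 : (c • p).2 = c * p.2 := rfl
  rw [h1, h2, ← mul_add, abs_mul, abs_mul, abs_mul, mul_max_of_nonneg _ _ (abs_nonneg c),
    mul_max_of_nonneg _ _ (abs_nonneg c)]
  congr 1
  ring

theorem hx_neg (l : ℝ) (p : ℝ × ℝ) : hx l (-p) = hx l p := by
  have := hx_smul l (-1) p
  rw [neg_one_smul, abs_neg, abs_one, one_mul] at this
  exact this

theorem hx_zero (l : ℝ) : hx l 0 = 0 := by
  unfold hx
  simp

theorem hx_eq_zero {l : ℝ} {p : ℝ × ℝ} (h : hx l p = 0) : p = 0 := by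
  have h1 := hx_fst l p
  have h2 := hx_snd l p
  rw [h] at h1 h2
  have h3 : p.1 = 0 := abs_eq_zero.mp (le_antisymm h1 (abs_nonneg _))
  have h4 : p.2 = 0 := abs_eq_zero.mp (le_antisymm h2 (abs_nonneg _))
  exact Prod.ext h3 h4

/-- the six functionals -/
def IsF (m a b : ℝ) : Prop :=
  (a = 1 ∧ b = 0) ∨ (a = -1 ∧ b = 0) ∨ (a = 0 ∧ b = 1) ∨ (a = 0 ∧ b = -1) ∨ (a = m ∧ b = m) ∨
    (a = -m ∧ b = -m)

theorem flat {m : ℝ} (hm : 0 < m) (x y : ℝ × ℝ) (a : ℝ) (hx1 : hx m x = a) (hy1 : hx m y = a)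
    (hxy : hx m (x + y) = 2 * a) :
    ∃ f1 f2 : ℝ, IsF m f1 f2 ∧ f1 * x.1 + f2 * x.2 = a ∧ f1 * y.1 + f2 * y.2 = a := by
  have x1 := hx_fst m x
  have x2 := hx_snd m x
  have x3 := hx_sum m x
  have y1 := hx_fst m y
  have y2 := hx_snd m y
  have y3 := hx_sum m y
  rw [hx1] at x1 x2 x3
  rw [hy1] at y1 y2 y3
  have e1 : (x + y).1 = x.1 + y.1 := rfl
  have e2 : (x + y).2 = x.2 + y.2 := rfl
  have key : |x.1 + y.1| = 2 * a ∨ |x.2 + y.2| = 2 * a ∨
      m * |x.1 + y.1 + (x.2 + y.2)| = 2 * a := by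
    unfold hx at hxy
    rw [e1, e2] at hxy
    rcases max_choice (max |x.1 + y.1| |x.2 + y.2|) (m * |x.1 + y.1 + (x.2 + y.2)|) with h | h
    · rcases max_choice |x.1 + y.1| |x.2 + y.2| with h' | h'
      · left; rw [← hxy, h, h']
      · right; left; rw [← hxy, h, h']
    · right; right; rw [← hxy, h]
  rw [abs_le] at x1 x2 y1 y2
  have x3' : m * (x.1 + x.2) ≤ a ∧ -a ≤ m * (x.1 + x.2) := by
    constructor
    · exact (mul_le_mul_of_nonneg_left (le_abs_self _) hm.le).trans x3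
    · have := mul_le_mul_of_nonneg_left (neg_abs_le (x.1 + x.2)) hm.le
      linarith
  have y3' : m * (y.1 + y.2) ≤ a ∧ -a ≤ m * (y.1 + y.2) := by
    constructor
    · exact (mul_le_mul_of_nonneg_left (le_abs_self _) hm.le).trans y3
    · have := mul_le_mul_of_nonneg_left (neg_abs_le (y.1 + y.2)) hm.le
      linarith
  rcases key with h | h | h
  · rcases abs_cases (x.1 + y.1) with ⟨h1, -⟩ | ⟨h1, -⟩
    · exact ⟨1, 0, Or.inl ⟨rfl, rfl⟩, by linarith [x1.2, y1.2], by linarith [x1.2, y1.2]⟩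
    · exact ⟨-1, 0, Or.inr (Or.inl ⟨rfl, rfl⟩), by linarith [x1.1, y1.1],
        by linarith [x1.1, y1.1]⟩
  · rcases abs_cases (x.2 + y.2) with ⟨h1, -⟩ | ⟨h1, -⟩
    · exact ⟨0, 1, Or.inr (Or.inr (Or.inl ⟨rfl, rfl⟩)), by linarith [x2.2, y2.2],
        by linarith [x2.2, y2.2]⟩
    · exact ⟨0, -1, Or.inr (Or.inr (Or.inr (Or.inl ⟨rfl, rfl⟩))), by linarith [x2.1, y2.1],
        by linarith [x2.1, y2.1]⟩
  · rcases abs_cases (x.1 + y.1 + (x.2 + y.2)) with ⟨h1, -⟩ | ⟨h1, -⟩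
    · rw [h1] at h
      exact ⟨m, m, Or.inr (Or.inr (Or.inr (Or.inr (Or.inl ⟨rfl, rfl⟩)))),
        by nlinarith [x3'.1, y3'.1], by nlinarith [x3'.1, y3'.1]⟩
    · rw [h1] at h
      exact ⟨-m, -m, Or.inr (Or.inr (Or.inr (Or.inr (Or.inr ⟨rfl, rfl⟩)))),
        by nlinarith [x3'.2, y3'.2], by nlinarith [x3'.2, y3'.2]⟩

theorem cases_aux {l m f1 f2 g1 g2 h1 h2 : ℝ} (hl : 1 / 2 < l) (hl1 : l < 1) (hm : 1 / 2 < m)
    (hm1 : m < 1) (F : IsF m f1 f2) (G : IsF m g1 g2) (H : IsF m h1 h2)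
    (e1 : f1 - l * (g1 - h1) = 0) (e2 : f2 - l * (g2 - h2) = 0) : l = m := by
  have p1 : l * m < l := by nlinarith
  have p2 : l * m < m := by nlinarith
  have p3 : m / 2 < l * m := by nlinarith
  have p4 : l / 2 < l * m := by nlinarith
  rcases F with ⟨rfl, rfl⟩ | ⟨rfl, rfl⟩ | ⟨rfl, rfl⟩ | ⟨rfl, rfl⟩ | ⟨rfl, rfl⟩ | ⟨rfl, rfl⟩ <;>
  rcases G with ⟨rfl, rfl⟩ | ⟨rfl, rfl⟩ | ⟨rfl, rfl⟩ | ⟨rfl, rfl⟩ | ⟨rfl, rfl⟩ | ⟨rfl, rfl⟩ <;>
  rcases H with ⟨rfl, rfl⟩ | ⟨rfl, rfl⟩ | ⟨rfl, rfl⟩ | ⟨rfl, rfl⟩ | ⟨rfl, rfl⟩ | ⟨rfl, rfl⟩ <;>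
  first
    | linarith
    | (exfalso; linarith)

/-- the defect of a pair -/
noncomputable def dfc (m : ℝ) (x y : ℝ × ℝ) : ℝ :=
  2 * hx m x ^ 2 + 2 * hx m y ^ 2 - hx m (x + y) ^ 2

theorem dfc_nonneg {m : ℝ} (hm : 0 ≤ m) (x y : ℝ × ℝ) : 0 ≤ dfc m x y := by
  unfold dfc
  have h1 := hx_add m hm x y
  have h2 := hx_nonneg m (x + y)
  nlinarith [sq_nonneg (hx m x - hx m y)]

theorem dfc_eq_zero {m : ℝ} (hm : 0 ≤ m) (x y : ℝ × ℝ) (h : dfc m x y = 0) :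
    hx m x = hx m y ∧ hx m (x + y) = 2 * hx m x := by
  unfold dfc at h
  have h1 := hx_add m hm x y
  have h2 := hx_nonneg m (x + y)
  have h3 := hx_nonneg m x
  have h4 := hx_nonneg m y
  have h5 : (hx m x - hx m y) ^ 2 ≤ 0 := by nlinarith
  have h6 : hx m x = hx m y := by nlinarith
  refine ⟨h6, ?_⟩
  rw [← h6] at h h1
  have h7 : (2 * hx m x - hx m (x + y)) * (2 * hx m x + hx m (x + y)) = 0 := by nlinarith
  rcases mul_eq_zero.mp h7 with h8 | h8 <;> linarith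

/-- the test quantity of the plane with parameter `l`, at the linear map with images `u`, `w` of
the basis, into the plane with parameter `m` -/
noncomputable def tst (l : ℝ) (u w : ℝ × ℝ) (m : ℝ) : ℝ :=
  dfc m (u + (1 / l - 1) • w) ((1 / l - 1) • u + w) + dfc m ((1 / l - 1) • u + w) (w - u) +
    dfc m (w - u) (-(u + (1 / l - 1) • w))

theorem tst_nonneg {l m : ℝ} (hm : 0 ≤ m) (u w : ℝ × ℝ) : 0 ≤ tst l u w m :=
  add_nonneg (add_nonneg (dfc_nonneg hm _ _) (dfc_nonneg hm _ _)) (dfc_nonneg hm _ _)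

theorem rigid {l m : ℝ} (hl : 1 / 2 < l) (hl1 : l < 1) (hm : 1 / 2 < m) (hm1 : m < 1)
    (u w : ℝ × ℝ) (h : tst l u w m = 0) : (u = 0 ∧ w = 0) ∨ l = m := by
  have hm0 : 0 ≤ m := by linarith
  have hmp : 0 < m := by linarith
  set t : ℝ := 1 / l - 1 with ht
  have hl0 : 0 < l := by linarith
  have hlt : l * (1 + t) = 1 := by rw [ht]; field_simp; ring
  have ht0 : 0 < t := by nlinarith
  have ht1 : t < 1 := by nlinarith
  set p := u + t • w with hp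
  set q := t • u + w with hq
  set r := w - u with hr
  have h' : dfc m p q + dfc m q r + dfc m r (-p) = 0 := h
  have n1 := dfc_nonneg hm0 p q
  have n2 := dfc_nonneg hm0 q r
  have n3 := dfc_nonneg hm0 r (-p)
  obtain ⟨a1, a2⟩ := dfc_eq_zero hm0 p q (by linarith)
  obtain ⟨b1, b2⟩ := dfc_eq_zero hm0 q r (by linarith)
  obtain ⟨c1, c2⟩ := dfc_eq_zero hm0 r (-p) (by linarith)
  set a := hx m p with ha
  obtain ⟨f1, f2, F, fp, fq⟩ := flat hmp p q a rfl a1.symm a2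
  obtain ⟨g1, g2, G, gq, gr⟩ := flat hmp q r a a1.symm (by rw [← b1, ← a1]) (by rw [b2, ← a1])
  obtain ⟨h1, h2, H, hr1, hp1⟩ := flat hmp r (-p) a (by rw [← b1, ← a1])
    (by rw [hx_neg]) (by rw [c2, ← b1, ← a1])
  have ep1 : p.1 = u.1 + t * w.1 := rfl
  have ep2 : p.2 = u.2 + t * w.2 := rfl
  have eq1 : q.1 = t * u.1 + w.1 := rfl
  have eq2 : q.2 = t * u.2 + w.2 := rfl
  have er1 : r.1 = w.1 - u.1 := rfl
  have er2 : r.2 = w.2 - u.2 := rfl
  have en1 : (-p).1 = -(u.1 + t * w.1) := rfl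
  have en2 : (-p).2 = -(u.2 + t * w.2) := rfl
  rcases eq_or_ne a 0 with h0 | h0
  · left
    have hp0 : p = 0 := hx_eq_zero h0
    have hr0 : r = 0 := hx_eq_zero (l := m) (by rw [← b1, ← a1, h0])
    have k1 : u.1 + t * w.1 = 0 := by rw [← ep1, hp0]; rfl
    have k2 : u.2 + t * w.2 = 0 := by rw [← ep2, hp0]; rfl
    have k3 : w.1 - u.1 = 0 := by rw [← er1, hr0]; rfl
    have k4 : w.2 - u.2 = 0 := by rw [← er2, hr0]; rfl
    have k5 : u.1 * (1 + t) = 0 := by nlinarith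
    have k6 : u.2 * (1 + t) = 0 := by nlinarith
    have k7 : u.1 = 0 := by
      rcases mul_eq_zero.mp k5 with h | h
      · exact h
      · linarith
    have k8 : u.2 = 0 := by
      rcases mul_eq_zero.mp k6 with h | h
      · exact h
      · linarith
    exact ⟨Prod.ext k7 k8, Prod.ext (by show w.1 = 0; linarith) (by show w.2 = 0; linarith)⟩
  · right
    have hqp1 : q.1 - p.1 = (1 - t) * r.1 := by rw [ep1, eq1, er1]; ring
    have hqp2 : q.2 - p.2 = (1 - t) * r.2 := by rw [ep2, eq2, er2]; ring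
    have ht1' : 1 - t ≠ 0 := by intro h; linarith
    have fr : f1 * r.1 + f2 * r.2 = 0 := by
      have : (1 - t) * (f1 * r.1 + f2 * r.2) = 0 := by
        calc (1 - t) * (f1 * r.1 + f2 * r.2) = f1 * ((1 - t) * r.1) + f2 * ((1 - t) * r.2) := by ring
          _ = 0 := by rw [← hqp1, ← hqp2]; linarith
      rcases mul_eq_zero.mp this with h | h
      · exact absurd h ht1'
      · exact h
    have gp : g1 * p.1 + g2 * p.2 = t * a := by
      have : g1 * (q.1 - p.1) + g2 * (q.2 - p.2) = (1 - t) * (g1 * r.1 + g2 * r.2) := by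
        rw [hqp1, hqp2]; ring
      rw [gr] at this
      linarith
    have hpp : h1 * p.1 + h2 * p.2 = -a := by
      have e1 : (-p).1 = -p.1 := rfl
      have e2 : (-p).2 = -p.2 := rfl
      rw [e1, e2] at hp1
      linarith
    have E1 : (f1 - l * (g1 - h1)) * p.1 + (f2 - l * (g2 - h2)) * p.2 = 0 := by
      have : (f1 - l * (g1 - h1)) * p.1 + (f2 - l * (g2 - h2)) * p.2 =
          (f1 * p.1 + f2 * p.2) - l * ((g1 * p.1 + g2 * p.2) - (h1 * p.1 + h2 * p.2)) := by ring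
      rw [this, fp, gp, hpp]
      have : a - l * (t * a - -a) = a * (1 - l * (1 + t)) := by ring
      rw [this, hlt]; ring
    have E2 : (f1 - l * (g1 - h1)) * r.1 + (f2 - l * (g2 - h2)) * r.2 = 0 := by
      have : (f1 - l * (g1 - h1)) * r.1 + (f2 - l * (g2 - h2)) * r.2 =
          (f1 * r.1 + f2 * r.2) - l * ((g1 * r.1 + g2 * r.2) - (h1 * r.1 + h2 * r.2)) := by ring
      rw [this, fr, gr, hr1]; ring
    have hdet : p.1 * r.2 - p.2 * r.1 ≠ 0 := by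
      intro h
      have : (f1 * g2 - f2 * g1) * (p.1 * r.2 - p.2 * r.1) =
          (f1 * p.1 + f2 * p.2) * (g1 * r.1 + g2 * r.2) -
            (f1 * r.1 + f2 * r.2) * (g1 * p.1 + g2 * p.2) := by ring
      rw [h, fp, gr, fr, mul_zero, zero_mul, sub_zero] at this
      exact h0 (mul_self_eq_zero.mp this.symm)
    have z1 : f1 - l * (g1 - h1) = 0 := by
      have : (f1 - l * (g1 - h1)) * (p.1 * r.2 - p.2 * r.1) =
          r.2 * ((f1 - l * (g1 - h1)) * p.1 + (f2 - l * (g2 - h2)) * p.2) -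
            p.2 * ((f1 - l * (g1 - h1)) * r.1 + (f2 - l * (g2 - h2)) * r.2) := by ring
      rw [E1, E2, mul_zero, mul_zero, sub_zero] at this
      rcases mul_eq_zero.mp this with h | h
      · exact h
      · exact absurd h hdet
    have z2 : f2 - l * (g2 - h2) = 0 := by
      have : (f2 - l * (g2 - h2)) * (p.1 * r.2 - p.2 * r.1) =
          p.1 * ((f1 - l * (g1 - h1)) * r.1 + (f2 - l * (g2 - h2)) * r.2) -
            r.1 * ((f1 - l * (g1 - h1)) * p.1 + (f2 - l * (g2 - h2)) * p.2) := by ring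
      rw [E1, E2, mul_zero, mul_zero, sub_zero] at this
      rcases mul_eq_zero.mp this with h | h
      · exact h
      · exact absurd h hdet
    exact cases_aux hl hl1 hm hm1 F G H z1 z2

end Pool.Agent.Q199.GF
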