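import Pool.Agent.Q199.GF.Cof

set_option autoImplicit false

namespace Pool.Agent.Q199.GF

open Filter Topology TopologicalSpace
open scoped ENNReal

theorem norm_v (i : ℕ) : ‖vec i 1 0‖ = 1 := by
  rw [norm_vec, abs_one, abs_zero, add_zero, abs_one, mul_one, max_eq_left zero_le_one,
    max_eq_left (by linarith [lam_hi i])]

/-- surjective linear isometries preserve the blocks -/
theorem iso_block (T : X ≃ₗᵢ[ℝ] X) (i : ℕ) (x : E i) :
    T (sg i x) = sg i ((T (sg i x)) i) := by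
  obtain ⟨C, hC0, hC⟩ := offdiag i
  let S : E i →L[ℝ] X := (T : X →L[ℝ] X).comp (sg i)
  have hS : ∀ y, S y = T (sg i y) := fun y => rfl
  have hn : ∀ y, ‖S y‖ = ‖y‖ := fun y => by rw [hS, T.norm_map, norm_sg]
  have h := hC 0 le_rfl zero_le_one S (fun y => by rw [hn]; simp) (fun y => by rw [hn]; simp) x
  rw [mul_zero, zero_mul, ← sub_sg_norm] at h
  have h2 : ‖S x - sg i (S x i)‖ = 0 := by
    have := norm_nonneg (S x - sg i (S x i))
    nlinarith
  have h3 := norm_eq_zero.mp h2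
  exact sub_eq_zero.mp h3

theorem far (i j : ℕ) (h : i ≠ j) (a : E i) (b : E j) : ‖a‖ ≤ ‖sg i a - sg j b‖ := by
  have h1 := norm_coord (sg i a - sg j b) i
  rw [sub_coord, sg_self, sg_ne j b h, sub_zero] at h1
  exact h1

theorem not_fd : ¬ FiniteDimensional ℝ X := by
  intro hfd
  haveI : ProperSpace X := FiniteDimensional.proper_real X
  obtain ⟨a, -, φ, hφ, hlim⟩ := tendsto_subseq_of_bounded
    (Metric.isBounded_closedBall (x := (0 : X)) (r := 1)) (x := fun m => sg m (vec m 1 0))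
    (fun n => by rw [mem_closedBall_zero_iff, norm_sg, norm_v])
  have h1 := hlim.cauchySeq
  rw [Metric.cauchySeq_iff'] at h1
  obtain ⟨N, hN⟩ := h1 1 one_pos
  have h2 := hN (N + 1) (Nat.le_succ N)
  have h3 : φ (N + 1) ≠ φ N := (hφ (Nat.lt_succ_self N)).ne'
  have h4 := far _ _ h3 (vec (φ (N + 1)) 1 0) (vec (φ N) 1 0)
  rw [norm_v, ← dist_eq_norm] at h4
  exact absurd h2 (not_lt.mpr h4)

theorem sep : SeparableSpace X := by
  rw [← isSeparable_univ_iff]
  let s : Set X := Set.range (fun i : ℕ => sg i (vec i 1 0)) ∪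
    Set.range (fun i : ℕ => sg i (vec i 0 1))
  have h1 : IsSeparable s := (Set.Countable.union (Set.countable_range _)
    (Set.countable_range _)).isSeparable
  have h2 : IsSeparable (Submodule.span ℝ s : Set X) := h1.span
  have h3 := h2.closure
  apply h3.mono
  intro f _
  refine mem_closure_of_tendsto (P_tendsto f) (Eventually.of_forall fun k => ?_)
  show P k f ∈ Submodule.span ℝ s
  rw [P_eq]
  apply Submodule.sum_mem
  intro i _
  rw [vec_eq i (f i), map_add, map_smul, map_smul]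
  apply Submodule.add_mem
  · apply Submodule.smul_mem
    exact Submodule.subset_span (Or.inl ⟨i, rfl⟩)
  · apply Submodule.smul_mem
    exact Submodule.subset_span (Or.inr ⟨i, rfl⟩)

theorem near_pt (z z0 : Fin 1 → X) (h : rho (orbitClosure z) (orbitClosure z0) < 1 / 4) :
    ∃ T : X ≃ₗᵢ[ℝ] X, ‖T (z 0) - z0 0‖ < 1 / 2 := by
  have hne : {d | ∃ w ∈ orbitClosure z, ∃ w' ∈ orbitClosure z0, d = dist w w'}.Nonempty :=
    ⟨dist z z0, z, subset_closure ⟨LinearIsometryEquiv.refl ℝ X, rfl⟩, z0,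
      subset_closure ⟨LinearIsometryEquiv.refl ℝ X, rfl⟩, rfl⟩
  obtain ⟨_, ⟨w, hw, w', hw', rfl⟩, hlt⟩ := exists_lt_of_csInf_lt hne h
  obtain ⟨_, ⟨T, rfl⟩, hT⟩ := Metric.mem_closure_iff.mp hw (1 / 8) (by norm_num)
  obtain ⟨_, ⟨T', rfl⟩, hT'⟩ := Metric.mem_closure_iff.mp hw' (1 / 8) (by norm_num)
  refine ⟨T.trans T'.symm, ?_⟩
  have h1 : dist (T (z 0)) (T' (z0 0)) < 1 / 2 := by
    have a1 : dist (w 0) (T (z 0)) ≤ dist w (fun i => T (z i)) :=
      dist_le_pi_dist w (fun i => T (z i)) 0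
    have a2 : dist (w' 0) (T' (z0 0)) ≤ dist w' (fun i => T' (z0 i)) :=
      dist_le_pi_dist w' (fun i => T' (z0 i)) 0
    have a3 : dist (w 0) (w' 0) ≤ dist w w' := dist_le_pi_dist w w' 0
    have a4 := dist_triangle4 (T (z 0)) (w 0) (w' 0) (T' (z0 0))
    rw [dist_comm (T (z 0)) (w 0)] at a4
    linarith
  have h2 : ‖(T.trans T'.symm) (z 0) - z0 0‖ = dist (T (z 0)) (T' (z0 0)) := by
    have h3 : (T.trans T'.symm) (z 0) - z0 0 = T'.symm (T (z 0) - T' (z0 0)) := by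
      rw [map_sub, T'.symm_apply_apply]
      rfl
    rw [h3, T'.symm.norm_map, dist_eq_norm]
  rw [h2]
  exact h1

theorem not_cat : ¬ OmegaCategorical X := by
  intro hcat
  obtain ⟨z0, -, φ, hφ, hlim⟩ := hcat 1 (fun m _ => sg m (vec m 1 0)) (fun m _ => by
    rw [norm_sg, norm_v])
  have h1 : ∀ᶠ m in atTop, rho (orbitClosure (fun _ : Fin 1 => sg (φ m) (vec (φ m) 1 0)))
      (orbitClosure z0) < 1 / 4 := hlim.eventually (gt_mem_nhds (by norm_num))
  obtain ⟨N, hN⟩ := eventually_atTop.mp h1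
  obtain ⟨T, hT⟩ := near_pt _ _ (hN N le_rfl)
  obtain ⟨T', hT'⟩ := near_pt _ _ (hN (N + 1) (Nat.le_succ N))
  have h3 : φ (N + 1) ≠ φ N := (hφ (Nat.lt_succ_self N)).ne'
  rw [iso_block] at hT hT'
  have h4 := far _ _ h3 ((T' (sg (φ (N + 1)) (vec (φ (N + 1)) 1 0))) (φ (N + 1)))
    ((T (sg (φ N) (vec (φ N) 1 0))) (φ N))
  have h5 : ‖(T' (sg (φ (N + 1)) (vec (φ (N + 1)) 1 0))) (φ (N + 1))‖ = 1 := by
    rw [← norm_sg, ← iso_block, T'.norm_map, norm_sg, norm_v]
  rw [h5] at h4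
  have h6 := norm_sub_le_norm_sub_add_norm_sub
    (sg (φ (N + 1)) ((T' (sg (φ (N + 1)) (vec (φ (N + 1)) 1 0))) (φ (N + 1)))) (z0 0)
    (sg (φ N) ((T (sg (φ N) (vec (φ N) 1 0))) (φ N)))
  rw [norm_sub_rev (z0 0)] at h6
  linarith

end Pool.Agent.Q199.GF
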