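import Pool.Agent.Q199.GF.Hex

set_option autoImplicit false

namespace Pool.Agent.Q199.GF

open Filter Topology

/-- the parameters -/
noncomputable def lam (j : ℕ) : ℝ := 3 / 4 + 1 / (8 * ((j : ℝ) + 1))

theorem lam_lo (j : ℕ) : 3 / 4 ≤ lam j := by
  unfold lam
  have : (0 : ℝ) ≤ 1 / (8 * ((j : ℝ) + 1)) := by positivity
  linarith

theorem lam_hi (j : ℕ) : lam j ≤ 7 / 8 := by
  unfold lam
  have h : (1 : ℝ) / (8 * ((j : ℝ) + 1)) ≤ 1 / 8 := by
    apply one_div_le_one_div_of_le (by norm_num)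
    have : (0 : ℝ) ≤ j := Nat.cast_nonneg j
    linarith
  linarith

theorem lam_gap (i j : ℕ) (h : j ≠ i) :
    1 / (8 * (((i : ℝ) + 1) * ((i : ℝ) + 2))) ≤ |lam j - lam i| := by
  have hi : (0 : ℝ) ≤ i := Nat.cast_nonneg i
  have hj : (0 : ℝ) ≤ j := Nat.cast_nonneg j
  have e : lam j - lam i = ((i : ℝ) - j) / (8 * (((i : ℝ) + 1) * ((j : ℝ) + 1))) := by
    unfold lam
    field_simp
    ring
  rw [e, abs_div, abs_of_pos (by positivity : (0 : ℝ) < 8 * (((i : ℝ) + 1) * ((j : ℝ) + 1))),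
    div_le_div_iff₀ (by positivity) (by positivity)]
  rcases lt_or_gt_of_ne h with h1 | h1
  · have h2 : (j : ℝ) + 1 ≤ i := by exact_mod_cast h1
    rw [abs_of_pos (by linarith)]
    have h3 : 1 ≤ (i : ℝ) - j := by linarith
    have h4 : ((j : ℝ) + 1) ≤ ((i : ℝ) - j) * ((i : ℝ) + 2) := by nlinarith
    have h5 := mul_le_mul_of_nonneg_left h4 (by positivity : (0 : ℝ) ≤ 8 * ((i : ℝ) + 1))
    linarith
  · have h2 : (i : ℝ) + 1 ≤ j := by exact_mod_cast h1
    rw [abs_of_neg (by linarith)]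
    have h3 : 1 ≤ (j : ℝ) - i := by linarith
    have h4 : ((j : ℝ) + 1) ≤ -((i : ℝ) - j) * ((i : ℝ) + 2) := by nlinarith
    have h5 := mul_le_mul_of_nonneg_left h4 (by positivity : (0 : ℝ) ≤ 8 * ((i : ℝ) + 1))
    linarith

theorem hx_continuous : Continuous (fun z : (ℝ × ℝ) × ℝ => hx z.2 z.1) := by
  unfold hx
  fun_prop

theorem dfc_continuous {Z : Type*} [TopologicalSpace Z] (f g : Z → ℝ × ℝ) (m : Z → ℝ)
    (hf : Continuous f) (hg : Continuous g) (hm : Continuous m) :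
    Continuous (fun z => dfc (m z) (f z) (g z)) := by
  unfold dfc
  have h1 : Continuous (fun z => hx (m z) (f z)) := hx_continuous.comp (hf.prodMk hm)
  have h2 : Continuous (fun z => hx (m z) (g z)) := hx_continuous.comp (hg.prodMk hm)
  have h3 : Continuous (fun z => hx (m z) (f z + g z)) :=
    hx_continuous.comp ((hf.add hg).prodMk hm)
  exact ((continuous_const.mul (h1.pow 2)).add (continuous_const.mul (h2.pow 2))).sub (h3.pow 2)

theorem tst_continuous (l : ℝ) :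
    Continuous (fun z : ((ℝ × ℝ) × (ℝ × ℝ)) × ℝ => tst l z.1.1 z.1.2 z.2) := by
  unfold tst
  refine ((dfc_continuous _ _ _ ?_ ?_ ?_).add (dfc_continuous _ _ _ ?_ ?_ ?_)).add
    (dfc_continuous _ _ _ ?_ ?_ ?_) <;> fun_prop

theorem dfc_smul (m c : ℝ) (x y : ℝ × ℝ) : dfc m (c • x) (c • y) = c ^ 2 * dfc m x y := by
  unfold dfc
  rw [← smul_add, hx_smul, hx_smul, hx_smul, mul_pow, mul_pow, mul_pow, sq_abs]
  ring

theorem tst_smul (l m c : ℝ) (u w : ℝ × ℝ) : tst l (c • u) (c • w) m = c ^ 2 * tst l u w m := by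
  unfold tst
  have e1 : c • u + (1 / l - 1) • c • w = c • (u + (1 / l - 1) • w) := by
    rw [smul_add, smul_comm]
  have e2 : (1 / l - 1) • c • u + c • w = c • ((1 / l - 1) • u + w) := by
    rw [smul_add, smul_comm]
  have e3 : c • w - c • u = c • (w - u) := by rw [smul_sub]
  have e4 : -(c • u + (1 / l - 1) • c • w) = c • (-(u + (1 / l - 1) • w)) := by
    rw [e1, smul_neg]
  rw [e4, e1, e2, e3, dfc_smul, dfc_smul, dfc_smul]
  ring

/-- The test quantity is coercive away from the own parameter. -/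
theorem tst_coercive (i : ℕ) : ∃ c : ℝ, 0 < c ∧ ∀ j : ℕ, j ≠ i → ∀ u w : ℝ × ℝ,
    c * ‖(u, w)‖ ^ 2 ≤ tst (lam i) u w (lam j) := by
  set ρ : ℝ := 1 / (8 * (((i : ℝ) + 1) * ((i : ℝ) + 2))) with hρ
  have hρ0 : 0 < ρ := by positivity
  have hcl : IsClosed {x : ℝ | ρ ≤ |x - lam i|} :=
    isClosed_le continuous_const ((continuous_id.sub continuous_const).abs)
  have hK : IsCompact ((Metric.sphere (0 : (ℝ × ℝ) × (ℝ × ℝ)) 1) ×ˢ
      (Set.Icc (3 / 4 : ℝ) (7 / 8) ∩ {x : ℝ | ρ ≤ |x - lam i|})) :=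
    (isCompact_sphere _ _).prod (isCompact_Icc.inter_right hcl)
  obtain ⟨c, hc0, hc⟩ := hK.exists_forall_le' (tst_continuous (lam i)).continuousOn (a := 0) (by
    rintro ⟨⟨u, w⟩, m⟩ ⟨h1, h2, h3⟩
    have hm1 : 1 / 2 < m := by linarith [h2.1]
    have hm2 : m < 1 := by linarith [h2.2]
    have h4 : 0 ≤ tst (lam i) u w m := tst_nonneg (by linarith) u w
    rcases h4.lt_or_eq with h5 | h5
    · exact h5
    · exfalso
      rcases rigid (by linarith [lam_lo i]) (by linarith [lam_hi i]) hm1 hm2 u w h5.symm with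
        ⟨h6, h7⟩ | h6
      · have h8 : ‖((u, w) : (ℝ × ℝ) × (ℝ × ℝ))‖ = 1 := by
          have := mem_sphere_zero_iff_norm.mp h1
          exact this
        rw [h6, h7] at h8
        simp at h8
      · have h9 : ρ ≤ |m - lam i| := h3
        rw [h6, sub_self, abs_zero] at h9
        linarith)
  refine ⟨c, hc0, ?_⟩
  intro j hj u w
  rcases eq_or_ne ((u, w) : (ℝ × ℝ) × (ℝ × ℝ)) 0 with h0 | h0
  · rw [h0]
    have : 0 ≤ tst (lam i) u w (lam j) := tst_nonneg (by linarith [lam_lo j]) u w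
    simpa using this
  · set n := ‖((u, w) : (ℝ × ℝ) × (ℝ × ℝ))‖ with hn
    have hn0 : 0 < n := norm_pos_iff.mpr h0
    have h1 := hc ((n⁻¹ • u, n⁻¹ • w), lam j) ⟨by
      rw [mem_sphere_zero_iff_norm]
      have : ((n⁻¹ • u, n⁻¹ • w) : (ℝ × ℝ) × (ℝ × ℝ)) = n⁻¹ • (u, w) := rfl
      rw [this, norm_smul, norm_inv, norm_norm, ← hn, inv_mul_cancel₀ hn0.ne'],
      ⟨lam_lo j, lam_hi j⟩, lam_gap i j hj⟩
    have h2 : c ≤ tst (lam i) (n⁻¹ • u) (n⁻¹ • w) (lam j) := h1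
    rw [tst_smul] at h2
    have h3 : (0 : ℝ) < n ^ 2 := by positivity
    calc c * n ^ 2 ≤ (n⁻¹ ^ 2 * tst (lam i) u w (lam j)) * n ^ 2 := by gcongr
      _ = tst (lam i) u w (lam j) := by field_simp

/-- The plane number `j`, normed by the hexagonal norm with parameter `lam j`. -/
def E (_ : ℕ) : Type := ℝ × ℝ

instance (j : ℕ) : AddCommGroup (E j) := inferInstanceAs (AddCommGroup (ℝ × ℝ))
instance (j : ℕ) : Module ℝ (E j) := inferInstanceAs (Module ℝ (ℝ × ℝ))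

theorem lam_nonneg (j : ℕ) : 0 ≤ lam j := by linarith [lam_lo j]

noncomputable def agn (j : ℕ) : AddGroupNorm (E j) where
  toFun := fun p => hx (lam j) p
  map_zero' := hx_zero _
  add_le' := fun p q => hx_add _ (lam_nonneg j) p q
  neg' := fun p => hx_neg _ p
  eq_zero_of_map_eq_zero' := fun p h => hx_eq_zero h

noncomputable instance (j : ℕ) : NormedAddCommGroup (E j) := (agn j).toNormedAddCommGroup

theorem norm_def (j : ℕ) (p : E j) : ‖p‖ = hx (lam j) p := rfl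

noncomputable instance (j : ℕ) : NormedSpace ℝ (E j) where
  norm_smul_le := fun c p => le_of_eq (by
    show hx (lam j) (c • (p : ℝ × ℝ)) = |c| * hx (lam j) p
    exact hx_smul _ _ _)

instance (j : ℕ) : FiniteDimensional ℝ (E j) := inferInstanceAs (FiniteDimensional ℝ (ℝ × ℝ))

instance (j : ℕ) : CompleteSpace (E j) := FiniteDimensional.complete ℝ (E j)

theorem abs_fst_le (j : ℕ) (p : E j) : |p.1| ≤ ‖p‖ := hx_fst _ _
theorem abs_snd_le (j : ℕ) (p : E j) : |p.2| ≤ ‖p‖ := hx_snd _ _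

theorem norm_le_two (j : ℕ) (p : ℝ × ℝ) : hx (lam j) p ≤ 2 * ‖p‖ := by
  have h1 : |p.1| ≤ ‖p‖ := norm_fst_le p
  have h2 : |p.2| ≤ ‖p‖ := norm_snd_le p
  have h0 : 0 ≤ ‖p‖ := norm_nonneg p
  apply hx_le (by linarith) (by linarith)
  calc lam j * |p.1 + p.2| ≤ 1 * (|p.1| + |p.2|) := by
        apply mul_le_mul (by linarith [lam_hi j]) (abs_add_le _ _) (abs_nonneg _) zero_le_one
    _ ≤ 2 * ‖p‖ := by linarith

theorem norm_le_pair (j : ℕ) (u w : ℝ × ℝ) :
    hx (lam j) u ≤ 2 * ‖(u, w)‖ ∧ hx (lam j) w ≤ 2 * ‖(u, w)‖ := by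
  have h1 : ‖u‖ ≤ ‖(u, w)‖ := norm_fst_le (u, w)
  have h2 : ‖w‖ ≤ ‖(u, w)‖ := norm_snd_le (u, w)
  have h3 := norm_le_two j u
  have h4 := norm_le_two j w
  constructor <;> linarith

end Pool.Agent.Q199.GF
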