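import Pool.Agent.Q199.GF.Plane

set_option autoImplicit false

namespace Pool.Agent.Q199.GF

open Filter Topology
open scoped ENNReal

/-- The `ℓ₂`-sum of the planes. -/
abbrev X : Type := lp E 2

theorem two_pos' : (0 : ℝ) < (2 : ℝ≥0∞).toReal := by norm_num

theorem sq_hasSum (f : X) : HasSum (fun j => ‖f j‖ ^ 2) (‖f‖ ^ 2) := by
  have h := lp.hasSum_norm two_pos' f
  simpa using h

/-- the block number `i` -/
noncomputable def sg (i : ℕ) : E i →L[ℝ] X := lp.singleContinuousLinearMap ℝ E 2 i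

/-- the coordinate number `i` -/
noncomputable def ev (i : ℕ) : X →L[ℝ] E i := lp.evalCLM ℝ E 2 i

theorem ev_apply (i : ℕ) (f : X) : ev i f = f i := rfl

theorem sg_self (i : ℕ) (a : E i) : sg i a i = a := lp.single_apply_self 2 i a

theorem sg_ne (i : ℕ) (a : E i) {j : ℕ} (h : j ≠ i) : sg i a j = 0 :=
  lp.single_apply_ne 2 i a h

theorem norm_sg (i : ℕ) (a : E i) : ‖sg i a‖ = ‖a‖ := lp.norm_single (by norm_num) i a

theorem norm_coord (f : X) (i : ℕ) : ‖f i‖ ≤ ‖f‖ := lp.norm_apply_le_norm (by norm_num) f i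

theorem ext_coord {f g : X} (h : ∀ i, f i = g i) : f = g := lp.ext (funext h)

theorem add_coord (f g : X) (i : ℕ) : (f + g) i = f i + g i := rfl
theorem sub_coord (f g : X) (i : ℕ) : (f - g) i = f i - g i := rfl
theorem smul_coord (c : ℝ) (f : X) (i : ℕ) : (c • f) i = c • f i := rfl
theorem zero_coord (i : ℕ) : (0 : X) i = 0 := rfl

/-- the projection onto the first `k` blocks -/
noncomputable def P (k : ℕ) : X →L[ℝ] X := ∑ i ∈ Finset.range k, (sg i).comp (ev i)

theorem P_eq (k : ℕ) (f : X) : P k f = ∑ i ∈ Finset.range k, sg i (f i) := by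
  unfold P
  rw [ContinuousLinearMap.sum_apply]
  rfl

theorem P_coord (k : ℕ) (f : X) (j : ℕ) : P k f j = if j < k then f j else 0 := by
  rw [P_eq, ← ev_apply, map_sum]
  by_cases h : j < k
  · rw [if_pos h, Finset.sum_eq_single j]
    · exact sg_self j _
    · intro i _ hi
      exact sg_ne i _ (Ne.symm hi)
    · intro h2
      exact absurd (Finset.mem_range.mpr h) h2
  · rw [if_neg h]
    apply Finset.sum_eq_zero
    intro i hi
    have h1 := Finset.mem_range.mp hi
    exact sg_ne i _ (by omega)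

theorem P_tendsto (f : X) : Tendsto (fun k => P k f) atTop (𝓝 f) := by
  have h := (lp.hasSum_single (p := 2) (by norm_num) f).tendsto_sum_nat
  have h2 : (fun k => P k f) = fun n => ∑ i ∈ Finset.range n, lp.single 2 i (f i) := by
    funext k
    rw [P_eq]
    rfl
  rw [h2]
  exact h

theorem P_P (k l : ℕ) (f : X) : P k (P l f) = P (min k l) f := by
  apply ext_coord
  intro j
  rw [P_coord, P_coord, P_coord]
  by_cases h1 : j < k <;> by_cases h2 : j < l <;> simp [h1, h2]

theorem P_sg_lt {k i : ℕ} (h : i < k) (a : E i) : P k (sg i a) = sg i a := by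
  apply ext_coord
  intro j
  rw [P_coord]
  by_cases h1 : j < k
  · rw [if_pos h1]
  · rw [if_neg h1, sg_ne i a (by omega)]

theorem P_sg_ge {k i : ℕ} (h : k ≤ i) (a : E i) : P k (sg i a) = 0 := by
  apply ext_coord
  intro j
  rw [P_coord, zero_coord]
  by_cases h1 : j < k
  · rw [if_pos h1, sg_ne i a (by omega)]
  · rw [if_neg h1]

/-- block maps -/
noncomputable def blkFun (U : ∀ i, E i ≃ₗᵢ[ℝ] E i) (f : X) : X :=
  ⟨fun j => U j (f j), (lp.memℓp f).mono' (fun i => le_of_eq ((U i).norm_map _))⟩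

theorem blkFun_coord (U : ∀ i, E i ≃ₗᵢ[ℝ] E i) (f : X) (j : ℕ) :
    blkFun U f j = U j (f j) := rfl

theorem blkFun_norm (U : ∀ i, E i ≃ₗᵢ[ℝ] E i) (f : X) : ‖blkFun U f‖ = ‖f‖ := by
  have h1 := sq_hasSum (blkFun U f)
  have h2 := sq_hasSum f
  have h3 : (fun j => ‖blkFun U f j‖ ^ 2) = fun j => ‖f j‖ ^ 2 := by
    funext j
    rw [blkFun_coord, (U j).norm_map]
  rw [h3] at h1
  have h4 := h1.unique h2
  exact (pow_left_inj₀ (norm_nonneg _) (norm_nonneg _) two_ne_zero).mp h4

noncomputable def blk (U : ∀ i, E i ≃ₗᵢ[ℝ] E i) : X ≃ₗᵢ[ℝ] X where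
  toFun := blkFun U
  map_add' f g := ext_coord fun j => (U j).map_add _ _
  map_smul' c f := ext_coord fun j => (U j).map_smul _ _
  invFun := blkFun (fun i => (U i).symm)
  left_inv f := ext_coord fun j => (U j).symm_apply_apply _
  right_inv f := ext_coord fun j => (U j).apply_symm_apply _
  norm_map' f := blkFun_norm U f

theorem blk_coord (U : ∀ i, E i ≃ₗᵢ[ℝ] E i) (f : X) (j : ℕ) : blk U f j = U j (f j) := rfl

theorem blk_sg (U : ∀ i, E i ≃ₗᵢ[ℝ] E i) (i : ℕ) (a : E i) : blk U (sg i a) = sg i (U i a) := by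
  apply ext_coord
  intro j
  rw [blk_coord]
  rcases eq_or_ne j i with h | h
  · subst h
    rw [sg_self, sg_self]
  · rw [sg_ne i a h, sg_ne i _ h, map_zero]

/-- the span of the first `k` blocks -/
noncomputable def G (k : ℕ) : Submodule ℝ X := LinearMap.range (P k).toLinearMap

theorem mem_G {k : ℕ} {f : X} : f ∈ G k ↔ P k f = f := by
  constructor
  · rintro ⟨g, rfl⟩
    show P k (P k g) = P k g
    rw [P_P, min_self]
  · intro h
    exact ⟨f, h⟩

instance (k : ℕ) : FiniteDimensional ℝ (G k) := by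
  let Φ : (∀ i : Fin k, E i) →ₗ[ℝ] X := ∑ i : Fin k, (sg i).toLinearMap ∘ₗ LinearMap.proj i
  have h : G k ≤ LinearMap.range Φ := by
    rintro _ ⟨g, rfl⟩
    refine ⟨fun i => g i, ?_⟩
    show Φ (fun i => g i) = P k g
    rw [P_eq, Finset.sum_range]
    simp only [Φ, LinearMap.sum_apply]
    rfl
  exact Submodule.finiteDimensional_of_le h

theorem sum_G {k : ℕ} {f : X} (h : f ∈ G k) : f = ∑ i ∈ Finset.range k, sg i (f i) := by
  rw [← P_eq]
  exact (mem_G.mp h).symm

end Pool.Agent.Q199.GF
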